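import Pool.Agent.Q191.IYB.NoCocycle

/-!
# Left braces and IYB groups; the groups `P` and `Q` are IYB
-/

set_option autoImplicit false

namespace Pool.Agent.Q191.IYB

/-- A left brace: an abelian group `(B,+)` and a group `(B,*)` (the circle operation) on the same
set with `a * (b + c) + a = a * b + a * c`. -/
class LeftBrace (B : Type*) extends AddCommGroup B, Group B where
  brace : ∀ a b c : B, a * (b + c) + a = a * b + a * c

/-- A finite group is an IYB-group if it is isomorphic to the multiplicative group of a finite left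
brace. -/
def IsIYB (H : Type) [Group H] : Prop :=
  ∃ (B : Type) (_ : LeftBrace B), Finite B ∧ Nonempty (H ≃* B)

/-- A group with a bijective cocycle is an IYB-group. -/
theorem isIYB_of_cocycle {H : Type} [Group H] [Finite H] {A : Type} [AddCommGroup A] (θ : H ≃ A)
    (Lam : H → A → A) (hadd : ∀ x a b, Lam x (a + b) = Lam x a + Lam x b)
    (hmul : ∀ x y, θ (x * y) = θ x + Lam x (θ y)) : IsIYB H := by
  let _ : AddCommGroup H := θ.addCommGroup
  have hθ : ∀ x y : H, θ (x + y) = θ x + θ y := fun x y => by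
    show θ (θ.symm (θ x + θ y)) = _
    simp
  let inst : LeftBrace H :=
    { (inferInstance : AddCommGroup H), (inferInstance : Group H) with
      brace := fun a b c => by
        apply θ.injective
        show θ (a * (b + c) + a) = θ (a * b + a * c)
        rw [hθ, hθ, hmul, hmul, hmul, hθ, hadd]
        abel }
  exact ⟨H, inst, inferInstance, ⟨MulEquiv.refl H⟩⟩

theorem IsIYB.of_equiv {H H' : Type} [Group H] [Group H'] (e : H ≃* H') (h : IsIYB H') :
    IsIYB H := by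
  obtain ⟨B, inst, hf, ⟨f⟩⟩ := h
  exact ⟨B, inst, hf, ⟨e.trans f⟩⟩

/-- Five coordinates over `ZMod 3`. -/
abbrev A5 : Type := ZMod 3 × ZMod 3 × ZMod 3 × ZMod 3 × ZMod 3

/-- The bijective cocycle of `P`. -/
def thetaP : Pg ≃ A5 where
  toFun x := (x.a, x.b, x.c + 2 * (x.a ^ 2 + x.b ^ 2),
    x.d + x.c * (x.a + x.b) + x.a * x.b ^ 2, x.e + x.c * (x.b - x.a) + x.a ^ 2 * x.b)
  invFun y := ⟨y.1, y.2.1, y.2.2.1 - 2 * (y.1 ^ 2 + y.2.1 ^ 2),
    y.2.2.2.1 - (y.2.2.1 - 2 * (y.1 ^ 2 + y.2.1 ^ 2)) * (y.1 + y.2.1) - y.1 * y.2.1 ^ 2,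
    y.2.2.2.2 - (y.2.2.1 - 2 * (y.1 ^ 2 + y.2.1 ^ 2)) * (y.2.1 - y.1) - y.1 ^ 2 * y.2.1⟩
  left_inv x := by
    ext <;> dsimp only <;> ring
  right_inv y := by
    refine Prod.ext ?_ (Prod.ext ?_ (Prod.ext ?_ (Prod.ext ?_ ?_))) <;> dsimp only <;> ring

/-- The linear parts for `P`. -/
def LamP (x : Pg) (y : A5) : A5 :=
  let β : ZMod 3 := x.a * y.1 + x.b * y.2.1 - (x.a * y.2.1 - x.b * y.1)
  (y.1, y.2.1, y.2.2.1 + β,
    y.2.2.2.1 + (y.2.2.1 + 2 * β) * x.b + x.c * (y.2.1 - y.1),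
    y.2.2.2.2 + (y.2.2.1 + 2 * β) * (-x.a) + x.c * (-y.1 - y.2.1))

theorem LamP_add (x : Pg) (y z : A5) : LamP x (y + z) = LamP x y + LamP x z := by
  unfold LamP
  simp only [Prod.fst_add, Prod.snd_add]
  refine Prod.ext ?_ (Prod.ext ?_ (Prod.ext ?_ (Prod.ext ?_ ?_))) <;>
    simp only [Prod.fst_add, Prod.snd_add] <;> ring

theorem thetaP_aux : ∀ a b c a' b' c' : ZMod 3,
    ((c + c' + 2 * (a * b' - b * a')) + 2 * ((a + a') ^ 2 + (b + b') ^ 2) =
      (c + 2 * (a ^ 2 + b ^ 2)) + ((c' + 2 * (a' ^ 2 + b' ^ 2)) +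
        (a * a' + b * b' - (a * b' - b * a')))) := by
  decide +kernel

theorem thetaP_aux1 : ∀ a b c a' b' c' : ZMod 3,
    (c * a' - c' * a) + T1 a b a' b' +
      (c + c' + 2 * (a * b' - b * a')) * ((a + a') + (b + b')) + (a + a') * (b + b') ^ 2 =
    c * (a + b) + a * b ^ 2 + (c' * (a' + b') + a' * b' ^ 2 +
      ((c' + 2 * (a' ^ 2 + b' ^ 2)) + 2 * (a * a' + b * b' - (a * b' - b * a'))) * b +
        c * (b' - a')) := by
  decide +kernel

theorem thetaP_aux2 : ∀ a b c a' b' c' : ZMod 3,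
    (c * b' - c' * b) + T2 a b a' b' +
      (c + c' + 2 * (a * b' - b * a')) * ((b + b') - (a + a')) + (a + a') ^ 2 * (b + b') =
    c * (b - a) + a ^ 2 * b + (c' * (b' - a') + a' ^ 2 * b' +
      ((c' + 2 * (a' ^ 2 + b' ^ 2)) + 2 * (a * a' + b * b' - (a * b' - b * a'))) * (-a) +
        c * (-a' - b')) := by
  decide +kernel

theorem thetaP_mul (x y : Pg) : thetaP (x * y) = thetaP x + LamP x (thetaP y) := by
  have h0 := thetaP_aux x.a x.b x.c y.a y.b y.c
  have h1 := thetaP_aux1 x.a x.b x.c y.a y.b y.c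
  have h2 := thetaP_aux2 x.a x.b x.c y.a y.b y.c
  simp only [thetaP, LamP, Equiv.coe_fn_mk, Pg.mul_def]
  refine Prod.ext ?_ (Prod.ext ?_ (Prod.ext ?_ (Prod.ext ?_ ?_)))
  · rfl
  · rfl
  · simp only [Prod.fst_add, Prod.snd_add]
    linear_combination h0
  · simp only [Prod.fst_add, Prod.snd_add]
    linear_combination h1
  · simp only [Prod.fst_add, Prod.snd_add]
    linear_combination h2

theorem isIYB_Pg : IsIYB Pg :=
  isIYB_of_cocycle thetaP LamP LamP_add thetaP_mul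

/-- The bijective cocycle of `Q`. -/
def thetaQ : Qg ≃ ZMod 2 × ZMod 2 × ZMod 2 where
  toFun x := (x.a, x.b, x.c)
  invFun y := ⟨y.1, y.2.1, y.2.2⟩
  left_inv _ := rfl
  right_inv _ := rfl

/-- The linear parts for `Q`. -/
def LamQ (x : Qg) (y : ZMod 2 × ZMod 2 × ZMod 2) : ZMod 2 × ZMod 2 × ZMod 2 :=
  (y.1, y.2.1, y.2.2 + (x.a * y.1 + x.b * y.2.1 + x.b * y.1))

theorem isIYB_Qg : IsIYB Qg := by
  refine isIYB_of_cocycle thetaQ LamQ ?_ ?_
  · intro x y z
    unfold LamQ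
    refine Prod.ext ?_ (Prod.ext ?_ ?_) <;>
    simp only [Prod.fst_add, Prod.snd_add] <;> ring
  · intro x y
    simp only [thetaQ, LamQ, Equiv.coe_fn_mk, Qg.mul_def]
    refine Prod.ext ?_ (Prod.ext ?_ ?_)
    · rfl
    · rfl
    · simp only [Prod.fst_add, Prod.snd_add]
      ring

theorem isIYB_of_subsingleton {H : Type} [Group H] [Subsingleton H] : IsIYB H := by
  refine isIYB_of_cocycle (A := PUnit.{1}) ⟨fun _ => 0, fun _ => 1, ?_, ?_⟩ (fun _ a => a) ?_ ?_
  · intro x; exact Subsingleton.elim _ _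
  · intro x; exact Subsingleton.elim _ _
  · intro x y z; rfl
  · intro x y; exact Subsingleton.elim _ _

end Pool.Agent.Q191.IYB
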