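import Mathlib

/-!
# The groups `P` (order `3^5`), `Q` (quaternion of order 8) and `P ⋊ Q`
-/

set_option autoImplicit false

namespace Pool.Agent.Q191.IYB

/-- The underlying set of the group of order `243`. -/
@[ext] structure Pg where
  a : ZMod 3
  b : ZMod 3
  c : ZMod 3
  d : ZMod 3
  e : ZMod 3
deriving DecidableEq, Fintype

/-- First component of the cubic map. -/
def T1 (a b a' b' : ZMod 3) : ZMod 3 :=
  -(b * b' ^ 2) + b * a' ^ 2 - b ^ 2 * b' + a * a' * b' + a * b * a' + a ^ 2 * b'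

/-- Second component of the cubic map. -/
def T2 (a b a' b' : ZMod 3) : ZMod 3 :=
  -(b * a' * b') - b ^ 2 * a' - a * b' ^ 2 + a * a' ^ 2 - a * b * b' + a ^ 2 * a'

theorem T1_cocycle : ∀ a b a' b' a'' b'' : ZMod 3,
    T1 a b a' b' + T1 (a + a') (b + b') a'' b'' + 2 * (a * b' - b * a') * a'' =
      T1 a' b' a'' b'' + T1 a b (a' + a'') (b' + b'') - 2 * (a' * b'' - b' * a'') * a := by
  decide +kernel

theorem T2_cocycle : ∀ a b a' b' a'' b'' : ZMod 3,
    T2 a b a' b' + T2 (a + a') (b + b') a'' b'' + 2 * (a * b' - b * a') * b'' =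
      T2 a' b' a'' b'' + T2 a b (a' + a'') (b' + b'') - 2 * (a' * b'' - b' * a'') * b := by
  decide +kernel

instance : Mul Pg := ⟨fun x y =>
  ⟨x.a + y.a, x.b + y.b, x.c + y.c + 2 * (x.a * y.b - x.b * y.a),
    x.d + y.d + (x.c * y.a - y.c * x.a) + T1 x.a x.b y.a y.b,
    x.e + y.e + (x.c * y.b - y.c * x.b) + T2 x.a x.b y.a y.b⟩⟩

instance : One Pg := ⟨⟨0, 0, 0, 0, 0⟩⟩

instance : Inv Pg := ⟨fun x => ⟨-x.a, -x.b, -x.c, -x.d - T1 (-x.a) (-x.b) x.a x.b,
  -x.e - T2 (-x.a) (-x.b) x.a x.b⟩⟩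

theorem Pg.mul_def (x y : Pg) : x * y =
  ⟨x.a + y.a, x.b + y.b, x.c + y.c + 2 * (x.a * y.b - x.b * y.a),
    x.d + y.d + (x.c * y.a - y.c * x.a) + T1 x.a x.b y.a y.b,
    x.e + y.e + (x.c * y.b - y.c * x.b) + T2 x.a x.b y.a y.b⟩ := rfl

theorem Pg.one_def : (1 : Pg) = ⟨0, 0, 0, 0, 0⟩ := rfl

theorem Pg.inv_def (x : Pg) : x⁻¹ = ⟨-x.a, -x.b, -x.c, -x.d - T1 (-x.a) (-x.b) x.a x.b,
  -x.e - T2 (-x.a) (-x.b) x.a x.b⟩ := rfl

instance : Group Pg := Group.ofLeftAxioms
  (by
    intro x y z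
    simp only [Pg.mul_def]
    ext
    · simp only []; ring
    · simp only []; ring
    · simp only []; ring
    · simp only []
      linear_combination T1_cocycle x.a x.b y.a y.b z.a z.b
    · simp only []
      linear_combination T2_cocycle x.a x.b y.a y.b z.a z.b)
  (by
    intro x
    simp only [Pg.mul_def, Pg.one_def]
    ext <;> simp [T1, T2])
  (by
    intro x
    simp only [Pg.mul_def, Pg.one_def, Pg.inv_def]
    ext <;> simp only [] <;> ring)

theorem card_Pg : Nat.card Pg = 243 := by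
  rw [Nat.card_eq_fintype_card]
  decide +kernel

/-- The underlying set of the quaternion group. -/
@[ext] structure Qg where
  a : ZMod 2
  b : ZMod 2
  c : ZMod 2
deriving DecidableEq, Fintype

instance : Mul Qg := ⟨fun x y =>
  ⟨x.a + y.a, x.b + y.b, x.c + y.c + (x.a * y.a + x.b * y.b + x.b * y.a)⟩⟩

instance : One Qg := ⟨⟨0, 0, 0⟩⟩

instance : Inv Qg := ⟨fun x => ⟨x.a, x.b, x.c + (x.a * x.a + x.b * x.b + x.b * x.a)⟩⟩

theorem Qg.mul_def (x y : Qg) : x * y =
  ⟨x.a + y.a, x.b + y.b, x.c + y.c + (x.a * y.a + x.b * y.b + x.b * y.a)⟩ := rfl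

instance : Group Qg := Group.ofLeftAxioms
  (by
    intro x y z
    simp only [Qg.mul_def]
    ext <;> simp only [] <;> ring)
  (by decide +kernel)
  (by decide +kernel)

theorem card_Qg : Nat.card Qg = 8 := by
  rw [Nat.card_eq_fintype_card]
  decide +kernel

/-- The first matrix entry etc. of the matrix attached to an element of `Q`; the matrix is
`(-1)^c i^a j^b` with `i = (0,-1;1,0)`, `j = (1,1;1,-1)`. -/
def m11 (q : Qg) : ZMod 3 :=
  (if q.c = 0 then 1 else -1) *
    (if q.a = 0 then (if q.b = 0 then 1 else 1) else (if q.b = 0 then 0 else -1))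
def m12 (q : Qg) : ZMod 3 :=
  (if q.c = 0 then 1 else -1) *
    (if q.a = 0 then (if q.b = 0 then 0 else 1) else (if q.b = 0 then -1 else 1))
def m21 (q : Qg) : ZMod 3 :=
  (if q.c = 0 then 1 else -1) *
    (if q.a = 0 then (if q.b = 0 then 0 else 1) else (if q.b = 0 then 1 else 1))
def m22 (q : Qg) : ZMod 3 :=
  (if q.c = 0 then 1 else -1) *
    (if q.a = 0 then (if q.b = 0 then 1 else -1) else (if q.b = 0 then 0 else 1))

theorem mat_mul : ∀ q r : Qg,
    m11 (q * r) = m11 q * m11 r + m12 q * m21 r ∧ m12 (q * r) = m11 q * m12 r + m12 q * m22 r ∧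
    m21 (q * r) = m21 q * m11 r + m22 q * m21 r ∧ m22 (q * r) = m21 q * m12 r + m22 q * m22 r := by
  decide +kernel

theorem mat_one : m11 1 = 1 ∧ m12 1 = 0 ∧ m21 1 = 0 ∧ m22 1 = 1 := by decide +kernel

theorem mat_det : ∀ q : Qg, m11 q * m22 q - m12 q * m21 q = 1 := by decide +kernel

theorem T1_equiv : ∀ (q : Qg) (a b a' b' : ZMod 3),
    T1 (m11 q * a + m12 q * b) (m21 q * a + m22 q * b) (m11 q * a' + m12 q * b')
      (m21 q * a' + m22 q * b') = m11 q * T1 a b a' b' + m12 q * T2 a b a' b' := by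
  decide +kernel

theorem T2_equiv : ∀ (q : Qg) (a b a' b' : ZMod 3),
    T2 (m11 q * a + m12 q * b) (m21 q * a + m22 q * b) (m11 q * a' + m12 q * b')
      (m21 q * a' + m22 q * b') = m21 q * T1 a b a' b' + m22 q * T2 a b a' b' := by
  decide +kernel

/-- The action of `Q` on `P`. -/
def act (q : Qg) (x : Pg) : Pg :=
  ⟨m11 q * x.a + m12 q * x.b, m21 q * x.a + m22 q * x.b, x.c,
    m11 q * x.d + m12 q * x.e, m21 q * x.d + m22 q * x.e⟩

theorem act_mul (q : Qg) (x y : Pg) : act q (x * y) = act q x * act q y := by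
  have h1 := T1_equiv q x.a x.b y.a y.b
  have h2 := T2_equiv q x.a x.b y.a y.b
  have hd := mat_det q
  simp only [act, Pg.mul_def]
  ext
  · simp only []; ring
  · simp only []; ring
  · simp only []
    linear_combination (-2 * (x.a * y.b - x.b * y.a)) * hd
  · simp only []
    linear_combination -h1
  · simp only []
    linear_combination -h2

theorem act_one (x : Pg) : act 1 x = x := by
  obtain ⟨h1, h2, h3, h4⟩ := mat_one
  simp only [act, h1, h2, h3, h4]
  ext <;> simp

theorem act_act (q r : Qg) (x : Pg) : act (q * r) x = act q (act r x) := by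
  obtain ⟨h1, h2, h3, h4⟩ := mat_mul q r
  simp only [act, h1, h2, h3, h4]
  ext <;> simp only [] <;> ring

/-- The action as a homomorphism. -/
def phi : Qg →* MulAut Pg where
  toFun q :=
    { toFun := act q
      invFun := act q⁻¹
      left_inv := fun x => by rw [← act_act, inv_mul_cancel, act_one]
      right_inv := fun x => by rw [← act_act, mul_inv_cancel, act_one]
      map_mul' := act_mul q }
  map_one' := by
    ext1 x
    exact act_one x
  map_mul' q r := by
    ext1 x
    exact act_act q r x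

theorem phi_apply (q : Qg) (x : Pg) : phi q x = act q x := rfl

/-- The group of order `1944`. -/
abbrev G : Type := Pg ⋊[phi] Qg

end Pool.Agent.Q191.IYB
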