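import Pool.Agent.Q191.IYB.Series

/-!
# There is no `Q`-equivariant brace structure on `P`
-/

set_option autoImplicit false

namespace Pool.Agent.Q191.IYB

/-- An affine action of `G = P ⋊ Q` on an abelian group of order `3^5`, transitive, with `Q` the
stabiliser of `0`. -/
structure Cocycle (A : Type*) [AddCommGroup A] where
  lam : G →* AddMonoid.End A
  π : G → A
  mul : ∀ g h, π (g * h) = π g + lam g (π h)
  zero : ∀ q : Qg, π (SemidirectProduct.inr q) = 0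
  inj : ∀ x y : Pg, π (SemidirectProduct.inl x) = π (SemidirectProduct.inl y) → x = y
  card : Nat.card A = 243

/-! ### Facts on `P` -/

/-- Membership in the derived subgroup. -/
def InN (x : Pg) : Prop := x.a = 0 ∧ x.b = 0
/-- Membership in the centre. -/
def InC (x : Pg) : Prop := x.a = 0 ∧ x.b = 0 ∧ x.c = 0

instance (x : Pg) : Decidable (InN x) := by unfold InN; infer_instance
instance (x : Pg) : Decidable (InC x) := by unfold InC; infer_instance

theorem InC.inN {x : Pg} (h : InC x) : InN x := ⟨h.1, h.2.1⟩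

/-- First generator. -/
def x0 : Pg := ⟨1, 0, 0, 0, 0⟩
/-- Second generator. -/
def y0 : Pg := ⟨0, 1, 0, 0, 0⟩
/-- Their commutator. -/
def w0 : Pg := (y0 * x0)⁻¹ * (x0 * y0)

theorem xy0 : x0 * y0 = y0 * x0 * w0 := by unfold w0; group

theorem w0_inN : InN w0 := by decide +kernel

theorem comm_w0 : ∀ d e : ZMod 3, ∃ a b : ZMod 3,
    (⟨a, b, 0, 0, 0⟩ : Pg) * w0 = w0 * ⟨a, b, 0, 0, 0⟩ * ⟨0, 0, 0, d, e⟩ := by
  decide +kernel

theorem xw0_ne : x0 * w0 ≠ w0 * x0 := by decide +kernel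

theorem comm_w0' (w : Pg) (hw : InC w) : ∃ v : Pg, v * w0 = w0 * v * w := by
  obtain ⟨a, b, c, d, e⟩ := w
  obtain ⟨h1, h2, h3⟩ := hw
  simp only at h1 h2 h3
  subst h1 h2 h3
  obtain ⟨a, b, h⟩ := comm_w0 d e
  exact ⟨_, h⟩

theorem inN_dec : ∀ c d e c' d' e' : ZMod 3, c ≠ 0 → ∃ d'' e'' : ZMod 3,
    (⟨0, 0, c', d', e'⟩ : Pg) = ⟨0, 0, 0, d'', e''⟩ ∨
    (⟨0, 0, c', d', e'⟩ : Pg) = ⟨0, 0, c, d, e⟩ * ⟨0, 0, 0, d'', e''⟩ ∨
    (⟨0, 0, c', d', e'⟩ : Pg) = ⟨0, 0, c, d, e⟩ * ⟨0, 0, c, d, e⟩ * ⟨0, 0, 0, d'', e''⟩ := by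
  decide +kernel

theorem inN_gen (n m : Pg) (hn : InN n) (hnc : ¬ InC n) (hm : InN m) :
    ∃ w : Pg, InC w ∧ (m = w ∨ m = n * w ∨ m = n * n * w) := by
  obtain ⟨a, b, c, d, e⟩ := n
  obtain ⟨a', b', c', d', e'⟩ := m
  obtain ⟨h1, h2⟩ := hn
  obtain ⟨h3, h4⟩ := hm
  simp only at h1 h2 h3 h4
  subst h1 h2 h3 h4
  have hc : c ≠ 0 := fun h => hnc ⟨rfl, rfl, h⟩
  obtain ⟨d'', e'', h⟩ := inN_dec c d e c' d' e' hc
  exact ⟨⟨0, 0, 0, d'', e''⟩, ⟨rfl, rfl, rfl⟩, h⟩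

theorem w0_not_inC : ¬ InC w0 := by decide +kernel

theorem trans : ∀ a b a' b' : ZMod 3, (a ≠ 0 ∨ b ≠ 0) → (a' ≠ 0 ∨ b' ≠ 0) →
    ∃ q : Qg, m11 q * a + m12 q * b = a' ∧ m21 q * a + m22 q * b = b' := by
  decide +kernel

theorem trans_V (x y : Pg) (hx : ¬ InN x) (hy : ¬ InN y) : ∃ (q : Qg) (n : Pg), InN n ∧
    act q x = y * n := by
  have hx' : x.a ≠ 0 ∨ x.b ≠ 0 := by
    by_contra h; push Not at h; exact hx ⟨h.1, h.2⟩
  have hy' : y.a ≠ 0 ∨ y.b ≠ 0 := by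
    by_contra h; push Not at h; exact hy ⟨h.1, h.2⟩
  obtain ⟨q, h1, h2⟩ := trans x.a x.b y.a y.b hx' hy'
  refine ⟨q, y⁻¹ * act q x, ?_, by group⟩
  constructor
  · show -y.a + (m11 q * x.a + m12 q * x.b) = 0
    rw [h1]; ring
  · show -y.b + (m21 q * x.a + m22 q * x.b) = 0
    rw [h2]; ring

theorem trans_W (x y : Pg) (hx : InC x) (hy : InC y) (hx1 : x ≠ 1) (hy1 : y ≠ 1) :
    ∃ q : Qg, act q x = y := by
  obtain ⟨a, b, c, d, e⟩ := x
  obtain ⟨a', b', c', d', e'⟩ := y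
  obtain ⟨h1, h2, h3⟩ := hx
  obtain ⟨h4, h5, h6⟩ := hy
  simp only at h1 h2 h3 h4 h5 h6
  subst h1 h2 h3 h4 h5 h6
  have hx' : d ≠ 0 ∨ e ≠ 0 := by
    by_contra h; push Not at h
    apply hx1
    rw [h.1, h.2]; rfl
  have hy' : d' ≠ 0 ∨ e' ≠ 0 := by
    by_contra h; push Not at h
    apply hy1
    rw [h.1, h.2]; rfl
  obtain ⟨q, h1, h2⟩ := trans d e d' e' hx' hy'
  refine ⟨q, ?_⟩
  unfold act
  ext
  · simp
  · simp
  · rfl
  · exact h1
  · exact h2

/-- The central involution of `Q`. -/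
def sg : Qg := ⟨0, 0, 1⟩

theorem act_inN : ∀ (q : Qg) (c d e : ZMod 3), ∃ d' e' : ZMod 3,
    act q ⟨0, 0, c, d, e⟩ = ⟨0, 0, c, d, e⟩ * ⟨0, 0, 0, d', e'⟩ := by decide +kernel

theorem act_inN' (q : Qg) (n : Pg) (hn : InN n) : ∃ w : Pg, InC w ∧ act q n = n * w := by
  obtain ⟨a, b, c, d, e⟩ := n
  obtain ⟨h1, h2⟩ := hn
  simp only at h1 h2
  subst h1 h2
  obtain ⟨d', e', h⟩ := act_inN q c d e
  exact ⟨_, ⟨rfl, rfl, rfl⟩, h⟩

theorem act_sg_inC : ∀ d e : ZMod 3, act sg ⟨0, 0, 0, d, e⟩ = (⟨0, 0, 0, d, e⟩ : Pg)⁻¹ := by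
  decide +kernel

theorem act_sg_inC' (n : Pg) (hn : InC n) : act sg n = n⁻¹ := by
  obtain ⟨a, b, c, d, e⟩ := n
  obtain ⟨h1, h2, h3⟩ := hn
  simp only at h1 h2 h3
  subst h1 h2 h3
  exact act_sg_inC d e

theorem cube_inN : ∀ c d e : ZMod 3,
    (⟨0, 0, c, d, e⟩ : Pg) * (⟨0, 0, c, d, e⟩ * ⟨0, 0, c, d, e⟩) = 1 := by
  decide +kernel

theorem cube_inN' (n : Pg) (hn : InN n) : n * (n * n) = 1 := by
  obtain ⟨a, b, c, d, e⟩ := n
  obtain ⟨h1, h2⟩ := hn
  simp only at h1 h2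
  subst h1 h2
  exact cube_inN c d e

/-- Elements of `Q` used in the argument. -/
theorem acts : (∃ q, act q x0 = y0) ∧ (∃ q n, InN n ∧ act q x0 = x0 * y0 * n) ∧
    (∃ q n, InN n ∧ act q x0 = x0 * (y0 * y0) * n) := by
  refine ⟨by decide +kernel, ?_, ?_⟩
  · exact trans_V x0 (x0 * y0) (by decide +kernel) (by decide +kernel)
  · exact trans_V x0 (x0 * (y0 * y0)) (by decide +kernel) (by decide +kernel)

/-! ### The argument -/

namespace Cocycle

variable {A : Type*} [AddCommGroup A] (C : Cocycle A)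

/-- The cocycle on `P`. -/
def p (x : Pg) : A := C.π (SemidirectProduct.inl x)

theorem p_mul (x y : Pg) : C.p (x * y) = C.p x + L C.lam x (C.p y) := by
  unfold p L
  rw [map_mul, C.mul]

theorem p_one : C.p 1 = 0 := by
  have h := C.p_mul 1 1
  rw [mul_one, L_one] at h
  exact left_eq_add.mp h

theorem p_act (q : Qg) (x : Pg) : C.p (act q x) = K C.lam q (C.p x) := by
  have h : (SemidirectProduct.inr q : G) * SemidirectProduct.inl x =
      SemidirectProduct.inl (act q x) * SemidirectProduct.inr q := by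
    ext <;> simp [phi_apply]
  have h1 := C.mul (SemidirectProduct.inr q) (SemidirectProduct.inl x)
  have h2 := C.mul (SemidirectProduct.inl (act q x)) (SemidirectProduct.inr q)
  rw [h] at h1
  rw [h2, C.zero, map_zero, add_zero, zero_add] at h1
  exact h1

theorem p_inj {x y : Pg} (h : C.p x = C.p y) : x = y := C.inj x y h

theorem p_surj (a : A) : ∃ x, C.p x = a := by
  have hf : Finite A := Nat.finite_of_card_ne_zero (by rw [C.card]; norm_num)
  have hb : Function.Bijective C.p :=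
    (Nat.bijective_iff_injective_and_card _).mpr ⟨fun x y h => C.p_inj h, by
      rw [card_Pg, C.card]⟩
  exact hb.2 a

/-- If `x y = y x w` then `(yx) p(w) = (x-1) p(y) - (y-1) p(x)`. -/
theorem p_comm {x y w : Pg} (h : x * y = y * x * w) :
    L C.lam (y * x) (C.p w) = (L C.lam x (C.p y) - C.p y) - (L C.lam y (C.p x) - C.p x) := by
  have h1 : C.p x + L C.lam x (C.p y) =
      C.p y + L C.lam y (C.p x) + L C.lam (y * x) (C.p w) := by
    rw [← C.p_mul, ← C.p_mul, ← C.p_mul, h]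
  have h2 : L C.lam (y * x) (C.p w) = (C.p x + L C.lam x (C.p y)) -
      (C.p y + L C.lam y (C.p x)) := by rw [h1]; abel
  rw [h2]; abel

/-- A stable subgroup. -/
structure Stable (M : AddSubgroup A) : Prop where
  K : ∀ (q : Qg) (a : A), a ∈ M → IYB.K C.lam q a ∈ M
  L : ∀ (x : Pg) (a : A), a ∈ M → IYB.L C.lam x a ∈ M

theorem Stable.of_L {M : AddSubgroup A} (hM : C.Stable M) {x : Pg} {a : A}
    (h : IYB.L C.lam x a ∈ M) : a ∈ M := by
  have h1 := hM.L x⁻¹ _ h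
  rw [← L_mul, inv_mul_cancel, L_one] at h1
  exact h1

theorem exists_proper (M : AddSubgroup A) (hM : M ≠ ⊥) (hs : C.Stable M) :
    ∃ M' : AddSubgroup A, M' ≤ M ∧ M' ≠ M ∧ C.Stable M' ∧
      (∀ (x : Pg) (a : A), a ∈ M → L C.lam x a - a ∈ M') := by
  obtain ⟨M', h1, h2, h3, h4, h5⟩ := IYB.exists_proper C.lam C.card M hM hs.K hs.L
  exact ⟨M', h1, h2, ⟨h3, h4⟩, h5⟩

theorem mem_mul {M : AddSubgroup A} (hM : C.Stable M) {x y : Pg} (hx : C.p x ∈ M)
    (hy : C.p y ∈ M) : C.p (x * y) ∈ M := by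
  rw [C.p_mul]
  exact M.add_mem hx (hM.L x _ hy)

include C in
/-- There is no such cocycle. -/
theorem not_exists : False := by
  -- the first step
  have htop : (⊤ : AddSubgroup A) ≠ ⊥ := by
    intro h
    have h1 : C.p x0 ∈ (⊥ : AddSubgroup A) := by rw [← h]; trivial
    have h2 : C.p x0 = C.p 1 := by rw [C.p_one]; exact AddSubgroup.mem_bot.mp h1
    exact absurd (C.p_inj h2) (by decide +kernel)
  obtain ⟨M2, -, hM2ne, hM2s, hM2⟩ := C.exists_proper ⊤ htop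
    ⟨fun _ _ _ => trivial, fun _ _ _ => trivial⟩
  have hM2' : ∀ (x : Pg) (a : A), L C.lam x a - a ∈ M2 := fun x a => hM2 x a trivial
  have hcomm2 : ∀ x y w : Pg, x * y = y * x * w → C.p w ∈ M2 := by
    intro x y w h
    apply hM2s.of_L (x := y * x)
    rw [C.p_comm h]
    exact M2.sub_mem (hM2' _ _) (hM2' _ _)
  have hw0 : C.p w0 ∈ M2 := hcomm2 _ _ _ xy0
  have hC2 : ∀ w, InC w → C.p w ∈ M2 := by
    intro w hw
    obtain ⟨v, hv⟩ := comm_w0' w hw
    exact hcomm2 _ _ _ hv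
  have hN2 : ∀ n, InN n → C.p n ∈ M2 := by
    intro n hn
    obtain ⟨w, hw, h | h | h⟩ := inN_gen w0 n w0_inN w0_not_inC hn
    · rw [h]; exact hC2 w hw
    · rw [h]; exact C.mem_mul hM2s hw0 (hC2 w hw)
    · rw [h]; exact C.mem_mul hM2s (C.mem_mul hM2s hw0 hw0) (hC2 w hw)
  have hN2' : ∀ x, C.p x ∈ M2 → InN x := by
    intro x hx
    by_contra hxN
    apply hM2ne
    rw [eq_top_iff]
    intro a _
    obtain ⟨y, rfl⟩ := C.p_surj a
    by_cases hy : InN y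
    · exact hN2 y hy
    · obtain ⟨q, n, hn, h⟩ := trans_V x y hxN hy
      have h1 : C.p (act q x) ∈ M2 := by rw [C.p_act]; exact hM2s.K q _ hx
      rw [h, C.p_mul] at h1
      have h2 := M2.sub_mem h1 (hM2s.L y _ (hN2 n hn))
      simpa using h2
  -- the second step
  have hM2bot : M2 ≠ ⊥ := by
    intro h
    have h1 : C.p w0 = C.p 1 := by
      rw [C.p_one]; rw [h] at hw0; exact AddSubgroup.mem_bot.mp hw0
    exact absurd (C.p_inj h1) (by decide +kernel)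
  obtain ⟨M3, hM32, hM3ne, hM3s, hM3⟩ := C.exists_proper M2 hM2bot hM2s
  have hop : ∀ (x y : Pg) (a : A), L C.lam x (L C.lam y a) - L C.lam y (L C.lam x a) =
      (L C.lam x (L C.lam y a - a) - (L C.lam y a - a)) -
      (L C.lam y (L C.lam x a - a) - (L C.lam x a - a)) := by
    intro x y a
    rw [map_sub, map_sub]; abel
  have hcomm3 : ∀ x y w : Pg, x * y = y * x * w → ∀ a, L C.lam w a - a ∈ M3 := by
    intro x y w h a
    apply hM3s.of_L (x := y * x)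
    rw [map_sub, ← L_mul, ← h, L_mul, L_mul, hop]
    exact M3.sub_mem (hM3 _ _ (hM2' _ _)) (hM3 _ _ (hM2' _ _))
  have hmul3 : ∀ w w' : Pg, (∀ a, L C.lam w a - a ∈ M3) → (∀ a, L C.lam w' a - a ∈ M3) →
      ∀ a, L C.lam (w * w') a - a ∈ M3 := by
    intro w w' h h' a
    have e : L C.lam (w * w') a - a = (L C.lam w (L C.lam w' a) - L C.lam w' a) +
        (L C.lam w' a - a) := by rw [L_mul]; abel
    rw [e]
    exact M3.add_mem (h _) (h' _)
  have hw03 : ∀ a, L C.lam w0 a - a ∈ M3 := hcomm3 _ _ _ xy0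
  have hC3' : ∀ w, InC w → ∀ a, L C.lam w a - a ∈ M3 := by
    intro w hw
    obtain ⟨v, hv⟩ := comm_w0' w hw
    exact hcomm3 _ _ _ hv
  have hN3' : ∀ n, InN n → ∀ a, L C.lam n a - a ∈ M3 := by
    intro n hn
    obtain ⟨w, hw, h | h | h⟩ := inN_gen w0 n w0_inN w0_not_inC hn
    · rw [h]; exact hC3' w hw
    · rw [h]; exact hmul3 _ _ hw03 (hC3' w hw)
    · rw [h]; exact hmul3 _ _ (hmul3 _ _ hw03 hw03) (hC3' w hw)
  have hC3 : ∀ w, InC w → C.p w ∈ M3 := by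
    intro w hw
    obtain ⟨v, hv⟩ := comm_w0' w hw
    apply hM3s.of_L (x := w0 * v)
    rw [C.p_comm hv]
    exact M3.sub_mem (hM3 _ _ hw0) (hw03 _)
  have hN3 : ∀ n, InN n → C.p n ∈ M3 → InC n := by
    intro n hn hnM
    by_contra hnC
    apply hM3ne
    apply le_antisymm hM32
    intro a ha
    obtain ⟨m, rfl⟩ := C.p_surj a
    obtain ⟨w, hw, h | h | h⟩ := inN_gen n m hn hnC (hN2' m ha)
    · rw [h]; exact hC3 w hw
    · rw [h]; exact C.mem_mul hM3s hnM (hC3 w hw)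
    · rw [h]; exact C.mem_mul hM3s (C.mem_mul hM3s hnM hnM) (hC3 w hw)
  have hM3C : ∀ a ∈ M3, ∃ w, InC w ∧ C.p w = a := by
    intro a ha
    obtain ⟨w, rfl⟩ := C.p_surj a
    exact ⟨w, hN3 w (hN2' w (hM32 ha)) ha, rfl⟩
  -- the third step
  have hM3bot : M3 ≠ ⊥ := by
    intro h
    have h0 : C.p ⟨0, 0, 0, 1, 0⟩ ∈ M3 := hC3 _ ⟨rfl, rfl, rfl⟩
    have h1 : C.p ⟨0, 0, 0, 1, 0⟩ = C.p 1 := by
      rw [C.p_one]; rw [h] at h0; exact AddSubgroup.mem_bot.mp h0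
    exact absurd (C.p_inj h1) (by decide +kernel)
  obtain ⟨M4, hM43, hM4ne, hM4s, hM4⟩ := C.exists_proper M3 hM3bot hM3s
  have hM4bot : ∀ a ∈ M4, a = 0 := by
    intro a ha
    by_contra ha0
    apply hM4ne
    apply le_antisymm hM43
    intro b hb
    obtain ⟨w, hw, rfl⟩ := hM3C a (hM43 ha)
    obtain ⟨w', hw', rfl⟩ := hM3C b hb
    by_cases h1 : w' = 1
    · rw [h1, C.p_one]; exact M4.zero_mem
    · have hw1 : w ≠ 1 := by
        rintro rfl; exact ha0 C.p_one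
      obtain ⟨q, hq⟩ := trans_W w w' hw hw' hw1 h1
      rw [← hq, C.p_act]
      exact hM4s.K q _ ha
  have htriv : ∀ (x : Pg) (a : A), a ∈ M3 → L C.lam x a = a := by
    intro x a ha
    exact sub_eq_zero.mp (hM4bot _ (hM4 x a ha))
  -- the fourth step
  set s : A → A := fun m => m + K C.lam sg m with hs
  have hsadd : ∀ a b, s (a + b) = s a + s b := by
    intro a b; simp only [hs, map_add]; abel
  have hssub : ∀ a b, s (a - b) = s a - s b := by
    intro a b; simp only [hs, map_sub]; abel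
  have hs3 : ∀ a ∈ M3, s a = 0 := by
    intro a ha
    obtain ⟨w, hw, rfl⟩ := hM3C a ha
    simp only [hs]
    rw [← C.p_act, act_sg_inC' w hw]
    have h := C.p_mul w w⁻¹
    rw [mul_inv_cancel, C.p_one] at h
    have hwi : C.p w⁻¹ ∈ M3 := by
      rw [← act_sg_inC' w hw, C.p_act]
      exact hM3s.K _ _ ha
    rw [htriv w _ hwi] at h
    exact h.symm
  have hK3 : ∀ (q : Qg) (m : A), m ∈ M2 → K C.lam q m - m ∈ M3 := by
    intro q m hm
    obtain ⟨n, rfl⟩ := C.p_surj m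
    obtain ⟨w, hw, h⟩ := act_inN' q n (hN2' n hm)
    rw [← C.p_act, h, C.p_mul, htriv n _ (hC3 w hw)]
    simpa using hC3 w hw
  have hsK : ∀ (q : Qg) (m : A), m ∈ M2 → s (K C.lam q m) = s m := by
    intro q m hm
    have h1 := hs3 _ (hK3 q m hm)
    rw [hssub] at h1
    exact sub_eq_zero.mp h1
  have hs2 : ∀ (x : Pg) (m : A), m ∈ M2 →
      L C.lam x (s m) - s m = (L C.lam x m - m) + (L C.lam x m - m) := by
    intro x m hm
    have e : s m = m + m + (K C.lam sg m - m) := by simp only [hs]; abel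
    rw [e, map_add, map_add, htriv x _ (hK3 sg m hm)]
    abel
  have h3M : ∀ m ∈ M2, s m + s m + s m = 0 := by
    intro m hm
    obtain ⟨n, rfl⟩ := C.p_surj m
    have hn := hN2' n hm
    have h1 := C.p_mul n (n * n)
    rw [cube_inN' n hn, C.p_one, C.p_mul] at h1
    rw [← hsadd, ← hsadd]
    apply hs3
    have h2 : C.p n + C.p n + C.p n = -((L C.lam n (L C.lam n (C.p n) - C.p n)) +
        (L C.lam n (C.p n) - C.p n) + (L C.lam n (C.p n) - C.p n)) := by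
      have h3 : C.p n + C.p n + C.p n = (C.p n + C.p n + C.p n) -
          (C.p n + L C.lam n (C.p n + L C.lam n (C.p n))) := by rw [← h1, sub_zero]
      rw [h3, map_sub, map_add]; abel
    rw [h2]
    exact M3.neg_mem (M3.add_mem (M3.add_mem (hM3s.L _ _ (hM3 _ _ hm)) (hM3 _ _ hm)) (hM3 _ _ hm))
  -- the bilinear form
  set b : Pg → Pg → A := fun x y => s (L C.lam x (C.p y) - C.p y) with hb
  have hb_mul_left : ∀ x x' y, b (x * x') y = b x y + b x' y := by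
    intro x x' y
    simp only [hb]
    have e : L C.lam (x * x') (C.p y) - C.p y = (L C.lam x (C.p y) - C.p y) +
        (L C.lam x' (C.p y) - C.p y) +
        (L C.lam x (L C.lam x' (C.p y) - C.p y) - (L C.lam x' (C.p y) - C.p y)) := by
      rw [L_mul, map_sub]; abel
    rw [e, hsadd, hsadd, hs3 _ (hM3 x _ (hM2' x' _)), add_zero]
  have hb_mul_right : ∀ x y y', b x (y * y') = b x y + b x y' := by
    intro x y y'
    simp only [hb]
    have e : L C.lam x (C.p (y * y')) - C.p (y * y') = (L C.lam x (C.p y) - C.p y) +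
        (L C.lam x (C.p y') - C.p y') +
        (L C.lam x (L C.lam y (C.p y') - C.p y') - (L C.lam y (C.p y') - C.p y')) := by
      rw [C.p_mul, map_add, map_sub]; abel
    rw [e, hsadd, hsadd, hs3 _ (hM3 x _ (hM2' y _)), add_zero]
  have hb_left_N : ∀ n y, InN n → b n y = 0 := by
    intro n y hn
    exact hs3 _ (hN3' n hn _)
  have hb_right_N : ∀ x n, InN n → b x n = 0 := by
    intro x n hn
    exact hs3 _ (hM3 x _ (hN2 n hn))
  have hb_act : ∀ q x y, b (act q x) (act q y) = b x y := by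
    intro q x y
    simp only [hb]
    rw [C.p_act, ← KL, ← map_sub]
    exact hsK q _ (hM2' x _)
  have hb3 : ∀ x y, b x y + b x y + b x y = 0 := fun x y => h3M _ (hM2' x _)
  obtain ⟨⟨q1, hq1⟩, ⟨q2, n2, hn2, hq2⟩, ⟨q3, n3, hn3, hq3⟩⟩ := acts
  have e1 : b y0 y0 = b x0 x0 := by rw [← hb_act q1 x0 x0, hq1]
  have e2 : b x0 x0 = b x0 x0 + b x0 y0 + b y0 x0 + b y0 y0 := by
    conv_lhs => rw [← hb_act q2 x0 x0, hq2]
    rw [hb_mul_left, hb_left_N n2 _ hn2, add_zero, hb_mul_right, hb_right_N _ n2 hn2, add_zero,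
      hb_mul_left, hb_mul_right, hb_mul_right]
    abel
  have e3 : b x0 x0 = b x0 x0 + (b x0 y0 + b x0 y0) + (b y0 x0 + b y0 x0) +
      (b y0 y0 + b y0 y0 + b y0 y0 + b y0 y0) := by
    conv_lhs => rw [← hb_act q3 x0 x0, hq3]
    rw [hb_mul_left, hb_left_N n3 _ hn3, add_zero, hb_mul_right, hb_right_N _ n3 hn3, add_zero,
      hb_mul_left, hb_mul_left, hb_mul_right, hb_mul_right, hb_mul_right, hb_mul_right]
    abel
  have e4 := hb3 x0 x0
  have e5 := hb3 y0 x0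
  have hκ : b x0 x0 = 0 := by
    rw [e1] at e2 e3
    have h2 : b x0 y0 + b y0 x0 = -b x0 x0 := by
      have : b x0 y0 + b y0 x0 = (b x0 x0 + b x0 y0 + b y0 x0 + b x0 x0) - b x0 x0 - b x0 x0 := by
        abel
      rw [this, ← e2]; abel
    have h3 : (b x0 y0 + b y0 x0) + (b x0 y0 + b y0 x0) + b x0 x0 + (b x0 x0 + b x0 x0 + b x0 x0)
        = 0 := by
      have : (b x0 y0 + b y0 x0) + (b x0 y0 + b y0 x0) + b x0 x0 +
          (b x0 x0 + b x0 x0 + b x0 x0) = (b x0 x0 + (b x0 y0 + b x0 y0) + (b y0 x0 + b y0 x0) +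
          (b x0 x0 + b x0 x0 + b x0 x0 + b x0 x0)) - b x0 x0 := by abel
      rw [this, ← e3]; abel
    rw [h2, e4] at h3
    have h4 : -b x0 x0 + -b x0 x0 + b x0 x0 + 0 = -b x0 x0 := by abel
    rw [h4] at h3
    exact neg_eq_zero.mp h3
  have hs0 : b x0 y0 + b y0 x0 = 0 := by
    rw [e1, hκ] at e2
    have : b x0 y0 + b y0 x0 = 0 + b x0 y0 + b y0 x0 + 0 := by abel
    rw [this, ← e2]
  -- the final computation
  have hyx : ∀ m ∈ M2, s (L C.lam (y0 * x0) m) = s m := by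
    intro m hm
    have h1 := hs3 _ (hM3 (y0 * x0) m hm)
    rw [hssub] at h1
    exact sub_eq_zero.mp h1
  have f1 : s (C.p w0) = b x0 y0 - b y0 x0 := by
    rw [← hyx _ hw0, C.p_comm xy0, hssub]
  have f2 : L C.lam w0 (C.p x0) - C.p x0 =
      (L C.lam x0 (L C.lam y0 (C.p x0) - C.p x0) - (L C.lam y0 (C.p x0) - C.p x0)) -
      (L C.lam y0 (L C.lam x0 (C.p x0) - C.p x0) - (L C.lam x0 (C.p x0) - C.p x0)) := by
    rw [← hop, ← L_mul, ← L_mul, xy0, L_mul (C.lam) (y0 * x0) w0, ← map_sub]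
    exact (htriv _ _ (hw03 _)).symm
  have f3 : (L C.lam w0 (C.p x0) - C.p x0) + (L C.lam w0 (C.p x0) - C.p x0) =
      (L C.lam x0 (b y0 x0) - b y0 x0) - (L C.lam y0 (b x0 x0) - b x0 x0) := by
    have g1 := hs2 x0 _ (hM2' y0 (C.p x0))
    have g2 := hs2 y0 _ (hM2' x0 (C.p x0))
    rw [show b y0 x0 = s (L C.lam y0 (C.p x0) - C.p x0) from rfl,
      show b x0 x0 = s (L C.lam x0 (C.p x0) - C.p x0) from rfl, g1, g2]
    rw [f2]; abel
  have f4 : (L C.lam x0 (C.p w0) - C.p w0) + (L C.lam x0 (C.p w0) - C.p w0) =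
      L C.lam x0 (b x0 y0 - b y0 x0) - (b x0 y0 - b y0 x0) := by
    rw [← f1, hs2 x0 _ hw0]
  have f5 : (C.p (x0 * w0) - C.p (w0 * x0)) + (C.p (x0 * w0) - C.p (w0 * x0)) = 0 := by
    have g : (C.p (x0 * w0) - C.p (w0 * x0)) + (C.p (x0 * w0) - C.p (w0 * x0)) =
        ((L C.lam x0 (C.p w0) - C.p w0) + (L C.lam x0 (C.p w0) - C.p w0)) -
        ((L C.lam w0 (C.p x0) - C.p x0) + (L C.lam w0 (C.p x0) - C.p x0)) := by
      rw [C.p_mul, C.p_mul]; abel
    rw [g, f3, f4, hκ, map_zero]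
    have k : b x0 y0 - b y0 x0 = b y0 x0 := by
      have h1 : b x0 y0 = -b y0 x0 := eq_neg_of_add_eq_zero_left hs0
      have h2 : -b y0 x0 - b y0 x0 = b y0 x0 - (b y0 x0 + b y0 x0 + b y0 x0) := by abel
      rw [h1, h2, e5, sub_zero]
    rw [k]; abel
  have f6 : C.p (x0 * w0) - C.p (w0 * x0) = 0 := by
    set z := C.p (x0 * w0) - C.p (w0 * x0) with hz
    have hf : Finite A := Nat.finite_of_card_ne_zero (by rw [C.card]; norm_num)
    have h1 : (243 : ℕ) • z = 0 := by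
      rw [← C.card]; exact card_nsmul_eq_zero'
    have h2 : (2 : ℕ) • z = 0 := by rw [two_nsmul]; exact f5
    have h4 : (242 : ℕ) • z = 0 := by
      rw [show (242 : ℕ) = 121 * 2 from rfl, mul_nsmul', h2, nsmul_zero]
    have h3 : (243 : ℕ) • z = (242 : ℕ) • z + z := succ_nsmul z 242
    rw [h1, h4, zero_add] at h3
    exact h3.symm
  exact xw0_ne (C.p_inj (sub_eq_zero.mp f6))

end Cocycle

end Pool.Agent.Q191.IYB
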