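import Pool.Agent.Q191.IYB.Brace

/-!
# `P ⋊ Q` is not an IYB-group
-/

set_option autoImplicit false

open scoped Pointwise

namespace Pool.Agent.Q191.IYB

section brace

variable {B : Type} [LeftBrace B]

theorem brace' (a b c : B) : a * (b + c) = a * b + a * c - a := by
  rw [← LeftBrace.brace, add_sub_cancel_right]

/-- The map `λ_a`. -/
def lamB (a b : B) : B := a * b - a

theorem mul_eqB (a b : B) : a * b = a + lamB a b := by
  unfold lamB; abel

theorem lamB_add (a b c : B) : lamB a (b + c) = lamB a b + lamB a c := by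
  unfold lamB
  rw [brace']; abel

theorem mul_zeroB (a : B) : a * (0 : B) = a := by
  have h := brace' a 0 0
  rw [add_zero] at h
  have h2 : a * (0 : B) - a = 0 := by
    have h3 : a * (0 : B) - a = (a * (0 : B) + a * 0 - a) - a * 0 := by abel
    rw [h3, ← h, sub_self]
  exact sub_eq_zero.mp h2

theorem one_eq_zeroB : (1 : B) = 0 := by
  have h := mul_zeroB (1 : B)
  rw [one_mul] at h
  exact h.symm

theorem lamB_mul (a b c : B) : lamB (a * b) c = lamB a (lamB b c) := by
  have h : lamB a (b * c) = lamB a b + lamB a (lamB b c) := by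
    rw [mul_eqB b c, lamB_add]
  have h2 : lamB a (lamB b c) = lamB a (b * c) - lamB a b := by rw [h]; abel
  rw [h2]
  unfold lamB
  rw [mul_assoc]; abel

theorem lamB_one (c : B) : lamB 1 c = c := by
  unfold lamB; rw [one_mul, one_eq_zeroB, sub_zero]

theorem lamB_zero (a : B) : lamB a 0 = 0 := by
  unfold lamB; rw [mul_zeroB, sub_self]

theorem lamB_nsmul (a b : B) (n : ℕ) : lamB a (n • b) = n • lamB a b := by
  induction n with
  | zero => rw [zero_nsmul, zero_nsmul, lamB_zero]
  | succ n ih => rw [succ_nsmul, succ_nsmul, lamB_add, ih]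

/-- Elements killed by `n`. -/
def Tor (B : Type) [LeftBrace B] (n : ℕ) : AddSubgroup B where
  carrier := {b | n • b = 0}
  zero_mem' := nsmul_zero n
  add_mem' := fun {a b} ha hb => by
    show n • (a + b) = 0
    rw [nsmul_add, show n • a = 0 from ha, show n • b = 0 from hb, add_zero]
  neg_mem' := fun {a} ha => by
    show n • (-a) = 0
    rw [neg_nsmul, show n • a = 0 from ha, neg_zero]

theorem mem_Tor (n : ℕ) (b : B) : b ∈ Tor B n ↔ n • b = 0 := Iff.rfl

theorem card_Tor (hB : Nat.card B = 1944) : Nat.card (Tor B 8) = 8 ∧ Nat.card (Tor B 243) = 243 := by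
  have hf : Finite B := Nat.finite_of_card_ne_zero (by rw [hB]; norm_num)
  have hall : ∀ b : B, (1944 : ℕ) • b = 0 := fun b => by rw [← hB]; exact card_nsmul_eq_zero'
  -- the product formula
  let f : B →+ B := nsmulAddMonoidHom 1216
  have hker : f.ker = Tor B 8 := by
    ext b
    rw [AddMonoidHom.mem_ker, mem_Tor]
    show (1216 : ℕ) • b = 0 ↔ _
    constructor
    · intro h
      have e : (8 : ℕ) • b + (5 : ℕ) • (1944 : ℕ) • b = (8 : ℕ) • (1216 : ℕ) • b := by
        rw [← mul_nsmul', ← mul_nsmul', ← add_nsmul]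
      rw [h, hall, nsmul_zero, nsmul_zero, add_zero] at e
      exact e
    · intro h
      rw [show (1216 : ℕ) = 152 * 8 from rfl, mul_nsmul', h, nsmul_zero]
  have hrange : f.range = Tor B 243 := by
    ext b
    rw [AddMonoidHom.mem_range, mem_Tor]
    constructor
    · rintro ⟨c, rfl⟩
      show (243 : ℕ) • (1216 : ℕ) • c = 0
      rw [← mul_nsmul', show 243 * 1216 = 152 * 1944 from rfl, mul_nsmul', hall, nsmul_zero]
    · intro h
      refine ⟨b, ?_⟩
      show (1216 : ℕ) • b = b
      rw [show (1216 : ℕ) = 5 * 243 + 1 from rfl, succ_nsmul, mul_nsmul', h, nsmul_zero, zero_add]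
  have hprod : Nat.card (Tor B 8) * Nat.card (Tor B 243) = 1944 := by
    rw [← hker, ← hrange, ← hB]
    have h1 := AddSubgroup.card_eq_card_quotient_mul_card_addSubgroup f.ker
    have h2 : Nat.card (B ⧸ f.ker) = Nat.card f.range :=
      Nat.card_congr (QuotientAddGroup.quotientKerEquivRange f).toEquiv
    rw [h1, h2, mul_comm]
  have h2 : ∃ m, Nat.card (Tor B 8) = 2 ^ m := by
    have : Fact (Nat.Prime 2) := ⟨Nat.prime_two⟩
    have hp : IsPGroup 2 (Multiplicative (Tor B 8)) := by
      intro g
      refine ⟨3, ?_⟩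
      apply Multiplicative.toAdd.injective
      rw [toAdd_pow]
      apply Subtype.ext
      exact (Multiplicative.toAdd g).2
    obtain ⟨m, hm⟩ := IsPGroup.iff_card.mp hp
    exact ⟨m, by rw [← hm]; exact Nat.card_congr Multiplicative.ofAdd⟩
  have h3 : ∃ m, Nat.card (Tor B 243) = 3 ^ m := by
    have : Fact (Nat.Prime 3) := ⟨Nat.prime_three⟩
    have hp : IsPGroup 3 (Multiplicative (Tor B 243)) := by
      intro g
      refine ⟨5, ?_⟩
      apply Multiplicative.toAdd.injective
      rw [toAdd_pow]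
      apply Subtype.ext
      exact (Multiplicative.toAdd g).2
    obtain ⟨m, hm⟩ := IsPGroup.iff_card.mp hp
    exact ⟨m, by rw [← hm]; exact Nat.card_congr Multiplicative.ofAdd⟩
  obtain ⟨m, hm⟩ := h2
  obtain ⟨k, hk⟩ := h3
  rw [hm, hk] at hprod
  have c1 : Nat.Coprime (3 ^ k) 8 := by
    rw [show (8 : ℕ) = 2 ^ 3 from rfl]
    exact Nat.Coprime.pow _ _ (by norm_num)
  have c2 : Nat.Coprime 243 (2 ^ m) := by
    rw [show (243 : ℕ) = 3 ^ 5 from rfl]
    exact Nat.Coprime.pow _ _ (by norm_num)
  have d1 : 3 ^ k ∣ 243 := by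
    apply c1.dvd_of_dvd_mul_left
    rw [show 8 * 243 = 1944 from rfl, ← hprod]
    exact Dvd.intro_left _ rfl
  have d2 : 243 ∣ 3 ^ k := by
    apply c2.dvd_of_dvd_mul_left
    rw [hprod]
    exact ⟨8, rfl⟩
  have e1 : 3 ^ k = 243 := Nat.dvd_antisymm d1 d2
  rw [e1] at hprod
  constructor
  · rw [hm]; omega
  · rw [hk, e1]

/-- The linear action on a torsion part. -/
def lamTor (n : ℕ) (a : B) : AddMonoid.End (Tor B n) where
  toFun t := ⟨lamB a t, by
    rw [mem_Tor, ← lamB_nsmul, show n • (t : B) = 0 from t.2, lamB_zero]⟩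
  map_zero' := by
    apply Subtype.ext
    exact lamB_zero a
  map_add' x y := by
    apply Subtype.ext
    exact lamB_add a x y

theorem lamTor_mul (n : ℕ) (a b : B) : lamTor n (a * b) = lamTor n a * lamTor n b := by
  ext t
  exact lamB_mul a b t

theorem lamTor_one (n : ℕ) : lamTor n (1 : B) = 1 := by
  ext t
  exact lamB_one (t : B)

end brace

theorem card_G : Nat.card G = 1944 := by
  have h : Nat.card G = Nat.card (Pg × Qg) := Nat.card_congr SemidirectProduct.equivProd
  rw [h, Nat.card_prod, card_Pg, card_Qg]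

instance : Finite G := Nat.finite_of_card_ne_zero (by rw [card_G]; norm_num)

/-- The subgroup `P`. -/
def PG : Subgroup G := (SemidirectProduct.inl : Pg →* G).range
/-- The subgroup `Q`. -/
def QG : Subgroup G := (SemidirectProduct.inr : Qg →* G).range

/-- `P` as a subgroup. -/
noncomputable def PG_equiv : Pg ≃* PG := MonoidHom.ofInjective SemidirectProduct.inl_injective
/-- `Q` as a subgroup. -/
noncomputable def QG_equiv : Qg ≃* QG := MonoidHom.ofInjective SemidirectProduct.inr_injective

theorem card_PG : Nat.card PG = 243 := by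
  rw [← card_Pg]; exact (Nat.card_congr PG_equiv.toEquiv).symm

theorem card_QG : Nat.card QG = 8 := by
  rw [← card_Qg]; exact (Nat.card_congr QG_equiv.toEquiv).symm

theorem fact2 : (1944 : ℕ).factorization 2 = 3 := by
  rw [show (1944 : ℕ) = 2 ^ 3 * 3 ^ 5 from rfl, Nat.factorization_mul (by norm_num) (by norm_num),
    Nat.Prime.factorization_pow Nat.prime_two, Nat.Prime.factorization_pow Nat.prime_three]
  simp

theorem fact3 : (1944 : ℕ).factorization 3 = 5 := by
  rw [show (1944 : ℕ) = 2 ^ 3 * 3 ^ 5 from rfl, Nat.factorization_mul (by norm_num) (by norm_num),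
    Nat.Prime.factorization_pow Nat.prime_two, Nat.Prime.factorization_pow Nat.prime_three]
  simp

theorem not_isIYB_G : ¬ IsIYB G := by
  rintro ⟨B, inst, hf, ⟨e⟩⟩
  have hB : Nat.card B = 1944 := by rw [← card_G]; exact (Nat.card_congr e.toEquiv).symm
  have hall : ∀ b : B, (1944 : ℕ) • b = 0 := fun b => by rw [← hB]; exact card_nsmul_eq_zero'
  obtain ⟨h8, h243⟩ := card_Tor hB
  -- the stabiliser
  have hsub : ∀ f : G ≃* B, ∃ H : Subgroup G, Nat.card H = 8 ∧ ∀ g, g ∈ H ↔ (8 : ℕ) • f g = 0 := by
    intro f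
    let H : Subgroup G :=
      { carrier := {g | (8 : ℕ) • f g = 0}
        mul_mem' := fun {a b} ha hb => by
          show (8 : ℕ) • f (a * b) = 0
          rw [map_mul, mul_eqB, nsmul_add, ← lamB_nsmul, show (8 : ℕ) • f a = 0 from ha,
            show (8 : ℕ) • f b = 0 from hb, lamB_zero, add_zero]
        one_mem' := by
          show (8 : ℕ) • f 1 = 0
          rw [map_one, one_eq_zeroB, nsmul_zero]
        inv_mem' := fun {a} ha => by
          show (8 : ℕ) • f a⁻¹ = 0
          have h1 : f a⁻¹ + lamB (f a⁻¹) (f a) = 0 := by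
            rw [← mul_eqB, ← map_mul, inv_mul_cancel, map_one, one_eq_zeroB]
          have h2 : (8 : ℕ) • (f a⁻¹ + lamB (f a⁻¹) (f a)) = 0 := by rw [h1, nsmul_zero]
          rw [nsmul_add, ← lamB_nsmul, show (8 : ℕ) • f a = 0 from ha, lamB_zero, add_zero] at h2
          exact h2 }
    refine ⟨H, ?_, fun g => Iff.rfl⟩
    rw [← h8]
    refine Nat.card_congr (f.toEquiv.subtypeEquiv ?_)
    intro g
    exact Iff.rfl
  have h2 : Fact (Nat.Prime 2) := ⟨Nat.prime_two⟩
  obtain ⟨H, hHc, hH⟩ := hsub e
  let S1 : Sylow 2 G := Sylow.ofCard H (by rw [hHc, card_G, fact2]; norm_num)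
  let S2 : Sylow 2 G := Sylow.ofCard QG (by rw [card_QG, card_G, fact2]; norm_num)
  obtain ⟨g0, hg0⟩ := MulAction.exists_smul_eq G S1 S2
  -- the conjugated isomorphism
  let e' : G ≃* B := (MulAut.conj g0⁻¹).trans e
  have he' : ∀ g, e' g = e (g0⁻¹ * g * g0) := fun g => by
    show e (MulAut.conj g0⁻¹ g) = _
    rw [MulAut.conj_apply, inv_inv]
  have hQ : ∀ q : Qg, (8 : ℕ) • e' (SemidirectProduct.inr q) = 0 := by
    intro q
    have h1 : (SemidirectProduct.inr q : G) ∈ (S2 : Subgroup G) := ⟨q, rfl⟩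
    rw [← hg0] at h1
    have h3 : g0⁻¹ * SemidirectProduct.inr q * g0 ∈ H := by
      have h4 : (SemidirectProduct.inr q : G) ∈ MulAut.conj g0 • H := h1
      rw [Subgroup.mem_pointwise_smul_iff_inv_smul_mem] at h4
      simpa [← map_inv, MulAut.smul_def, MulAut.conj_apply] using h4
    rw [he']
    exact (hH _).mp h3
  obtain ⟨H', hHc', hH'⟩ := hsub e'
  let lamG : G →* AddMonoid.End (Tor B 243) :=
    { toFun := fun g => lamTor 243 (e' g)
      map_one' := by rw [map_one, lamTor_one]
      map_mul' := fun a b => by rw [map_mul, lamTor_mul] }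
  let piG : G → Tor B 243 := fun g => ⟨(1216 : ℕ) • e' g, by
    rw [mem_Tor, ← mul_nsmul', show 243 * 1216 = 152 * 1944 from rfl, mul_nsmul', hall,
      nsmul_zero]⟩
  have hpi : ∀ g h, piG (g * h) = piG g + lamG g (piG h) := by
    intro g h
    apply Subtype.ext
    show (1216 : ℕ) • e' (g * h) = (1216 : ℕ) • e' g + lamB (e' g) ((1216 : ℕ) • e' h)
    rw [map_mul, mul_eqB, nsmul_add, lamB_nsmul]
  have hker : ∀ g, piG g = 0 → g ∈ H' := by
    intro g hg
    rw [hH']
    have h : (1216 : ℕ) • e' g = 0 := congrArg Subtype.val hg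
    have e : (8 : ℕ) • e' g + (5 : ℕ) • (1944 : ℕ) • e' g = (8 : ℕ) • (1216 : ℕ) • e' g := by
      rw [← mul_nsmul', ← mul_nsmul', ← add_nsmul]
    rw [h, hall, nsmul_zero, nsmul_zero, add_zero] at e
    exact e
  have hinj : ∀ x y : Pg, piG (SemidirectProduct.inl x) = piG (SemidirectProduct.inl y) →
      x = y := by
    intro x y hxy
    have h1 := hpi (SemidirectProduct.inl x) (SemidirectProduct.inl (x⁻¹ * y))
    rw [← map_mul, mul_inv_cancel_left, ← hxy] at h1
    have h3 : lamG (SemidirectProduct.inl x) (piG (SemidirectProduct.inl (x⁻¹ * y))) = 0 :=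
      left_eq_add.mp h1
    have h4 : piG (SemidirectProduct.inl (x⁻¹ * y)) = 0 := by
      have h5 : lamG (SemidirectProduct.inl x)⁻¹
          (lamG (SemidirectProduct.inl x) (piG (SemidirectProduct.inl (x⁻¹ * y)))) =
          piG (SemidirectProduct.inl (x⁻¹ * y)) := by
        have h6 : (lamG (SemidirectProduct.inl x)⁻¹ * lamG (SemidirectProduct.inl x))
            (piG (SemidirectProduct.inl (x⁻¹ * y))) = piG (SemidirectProduct.inl (x⁻¹ * y)) := by
          rw [← map_mul, inv_mul_cancel, map_one]; rfl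
        exact h6
      rw [← h5, h3, map_zero]
    have h6 := hker _ h4
    set z := x⁻¹ * y with hz
    have o1 : orderOf (SemidirectProduct.inl z : G) ∣ 8 := by
      rw [← hHc']
      exact Subgroup.orderOf_dvd_natCard H' h6
    have o2 : orderOf (SemidirectProduct.inl z : G) ∣ 243 := by
      rw [orderOf_injective (SemidirectProduct.inl : Pg →* G) SemidirectProduct.inl_injective z,
        ← card_Pg]
      exact orderOf_dvd_natCard z
    have o3 : orderOf (SemidirectProduct.inl z : G) = 1 :=
      Nat.eq_one_of_dvd_coprimes (by norm_num) o1 o2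
    have o4 : (SemidirectProduct.inl z : G) = 1 := orderOf_eq_one_iff.mp o3
    have o5 : z = 1 := SemidirectProduct.inl_injective (by rw [o4, map_one])
    exact (inv_mul_eq_one.mp (hz ▸ o5))
  exact Cocycle.not_exists
    { lam := lamG
      π := piG
      mul := hpi
      zero := fun q => by
        apply Subtype.ext
        show (1216 : ℕ) • e' (SemidirectProduct.inr q) = 0
        rw [show (1216 : ℕ) = 152 * 8 from rfl, mul_nsmul', hQ, nsmul_zero]
      inj := hinj
      card := h243 }

theorem isSolvable_G : Group.IsSolvable G := by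
  have : Fact (Nat.Prime 3) := ⟨Nat.prime_three⟩
  have : Fact (Nat.Prime 2) := ⟨Nat.prime_two⟩
  have hP : Group.IsSolvable Pg := by
    have := (isPGroup_Pg).isNilpotent
    infer_instance
  have hQ : Group.IsSolvable Qg := by
    have hp : IsPGroup 2 Qg := IsPGroup.of_card (n := 3) (by rw [card_Qg]; norm_num)
    have := hp.isNilpotent
    infer_instance
  exact Group.isSolvable_of_ker_le_range (SemidirectProduct.inl : Pg →* G)
    (SemidirectProduct.rightHom : G →* Qg) (by rw [SemidirectProduct.range_inl_eq_ker_rightHom])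

theorem isIYB_sylow (p : ℕ) [Fact p.Prime] (S : Sylow p G) : IsIYB S := by
  by_cases h2 : p = 2
  · subst h2
    let S2 : Sylow 2 G := Sylow.ofCard QG (by rw [card_QG, card_G, fact2]; norm_num)
    have e1 : S ≃* S2 := Sylow.equiv S S2
    have e2 : Qg ≃* S2 := QG_equiv
    exact IsIYB.of_equiv (e1.trans e2.symm) isIYB_Qg
  · by_cases h3 : p = 3
    · subst h3
      let S3 : Sylow 3 G := Sylow.ofCard PG (by rw [card_PG, card_G, fact3]; norm_num)
      have e1 : S ≃* S3 := Sylow.equiv S S3
      have e2 : Pg ≃* S3 := PG_equiv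
      exact IsIYB.of_equiv (e1.trans e2.symm) isIYB_Pg
    · have hp : p.Prime := Fact.out
      have hf : (1944 : ℕ).factorization p = 0 := by
        apply Nat.factorization_eq_zero_of_not_dvd
        rw [show (1944 : ℕ) = 2 ^ 3 * 3 ^ 5 from rfl]
        intro h
        rcases (Nat.Prime.dvd_mul hp).mp h with h | h
        · exact h2 ((Nat.prime_dvd_prime_iff_eq hp Nat.prime_two).mp (hp.dvd_of_dvd_pow h))
        · exact h3 ((Nat.prime_dvd_prime_iff_eq hp Nat.prime_three).mp (hp.dvd_of_dvd_pow h))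
      have hc : Nat.card S = 1 := by
        rw [S.card_eq_multiplicity, card_G, hf, pow_zero]
      have hs : Subsingleton S := (Nat.card_eq_one_iff_unique.mp hc).1
      exact isIYB_of_subsingleton

end Pool.Agent.Q191.IYB
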