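import Pool.Agent.Q191.IYB.Grp

/-!
# The ascending series of fixed points
-/

set_option autoImplicit false

namespace Pool.Agent.Q191.IYB

variable {A : Type*} [AddCommGroup A]

/-- The linear action of `P`. -/
abbrev L (lam : G →* AddMonoid.End A) (x : Pg) : AddMonoid.End A := lam (SemidirectProduct.inl x)
/-- The linear action of `Q`. -/
abbrev K (lam : G →* AddMonoid.End A) (q : Qg) : AddMonoid.End A := lam (SemidirectProduct.inr q)

variable (lam : G →* AddMonoid.End A)

theorem L_mul (x y : Pg) (a : A) : L lam (x * y) a = L lam x (L lam y a) := by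
  show lam (SemidirectProduct.inl (x * y)) a = _
  rw [map_mul, map_mul]; rfl

theorem K_mul (x y : Qg) (a : A) : K lam (x * y) a = K lam x (K lam y a) := by
  show lam (SemidirectProduct.inr (x * y)) a = _
  rw [map_mul, map_mul]; rfl

theorem L_one (a : A) : L lam 1 a = a := by
  simp [L]

theorem K_one (a : A) : K lam 1 a = a := by
  simp [K]

theorem KL (q : Qg) (x : Pg) (a : A) : K lam q (L lam x a) = L lam (act q x) (K lam q a) := by
  have h : (SemidirectProduct.inr q : G) * SemidirectProduct.inl x =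
      SemidirectProduct.inl (act q x) * SemidirectProduct.inr q := by
    ext <;> simp [phi_apply]
  have h2 := congrArg (fun f => f a) (congrArg lam h)
  rw [map_mul, map_mul] at h2
  exact h2

/-- The ascending series. -/
def ser : ℕ → AddSubgroup A
  | 0 => ⊥
  | n + 1 =>
    { carrier := {a | ∀ x : Pg, L lam x a - a ∈ ser n}
      zero_mem' := fun x => by simp
      add_mem' := fun {a b} ha hb x => by
        have h : L lam x (a + b) - (a + b) = (L lam x a - a) + (L lam x b - b) := by
          rw [map_add]; abel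
        rw [h]; exact (ser n).add_mem (ha x) (hb x)
      neg_mem' := fun {a} ha x => by
        have h : L lam x (-a) - -a = -(L lam x a - a) := by rw [map_neg]; abel
        rw [h]; exact (ser n).neg_mem (ha x) }

theorem mem_ser_succ (n : ℕ) (a : A) :
    a ∈ ser lam (n + 1) ↔ ∀ x : Pg, L lam x a - a ∈ ser lam n := Iff.rfl

theorem ser_le_succ (n : ℕ) : ser lam n ≤ ser lam (n + 1) := by
  induction n with
  | zero =>
    intro a ha
    have : a = 0 := AddSubgroup.mem_bot.mp ha
    rw [this]; exact AddSubgroup.zero_mem _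
  | succ n ih =>
    intro a ha x
    exact ih (ha x)

theorem ser_mono : Monotone (ser lam) := monotone_nat_of_le_succ (ser_le_succ lam)

theorem L_mem_ser (n : ℕ) (x : Pg) {a : A} (ha : a ∈ ser lam n) : L lam x a ∈ ser lam n := by
  have h := ser_le_succ lam n ha x
  have h2 := (ser lam n).add_mem h ha
  simpa using h2

theorem K_mem_ser (n : ℕ) (q : Qg) {a : A} (ha : a ∈ ser lam n) : K lam q a ∈ ser lam n := by
  induction n generalizing a with
  | zero =>
    have : a = 0 := AddSubgroup.mem_bot.mp ha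
    rw [this, map_zero]; exact AddSubgroup.zero_mem _
  | succ n ih =>
    intro x
    have h1 : L lam x (K lam q a) = K lam q (L lam (act q⁻¹ x) a) := by
      rw [KL, ← act_act, mul_inv_cancel, act_one]
    rw [h1, ← map_sub]
    exact ih (ha _)

/-- The action of `P` on the quotient by a term of the series. -/
@[reducible] def quotAction (n : ℕ) : MulAction Pg (A ⧸ ser lam n) where
  smul x := QuotientAddGroup.map (ser lam n) (ser lam n) (L lam x)
    (fun _ ha => L_mem_ser lam n x ha)
  one_smul a := by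
    induction a using QuotientAddGroup.induction_on with
    | H a =>
      show ((L lam 1 a : A) : A ⧸ ser lam n) = a
      rw [L_one]
  mul_smul x y a := by
    induction a using QuotientAddGroup.induction_on with
    | H a =>
      show ((L lam (x * y) a : A) : A ⧸ ser lam n) = ((L lam x (L lam y a) : A) : A ⧸ ser lam n)
      rw [L_mul]

theorem isPGroup_Pg : IsPGroup 3 Pg := IsPGroup.of_card (n := 5) (by rw [card_Pg]; norm_num)

theorem ser_lt_succ (hA : Nat.card A = 243) (n : ℕ) (hn : ser lam n ≠ ⊤) :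
    ser lam n ≠ ser lam (n + 1) := by
  intro heq
  have : Fact (Nat.Prime 3) := ⟨Nat.prime_three⟩
  have : Finite A := Nat.finite_of_card_ne_zero (by rw [hA]; norm_num)
  let _ := quotAction lam n
  have hdvd : Nat.card (A ⧸ ser lam n) ∣ 243 := by
    rw [← hA]
    exact ⟨_, (AddSubgroup.card_eq_card_quotient_mul_card_addSubgroup (ser lam n))⟩
  have hne : Nat.card (A ⧸ ser lam n) ≠ 1 := by
    intro h1
    apply hn
    have : (ser lam n).index = 1 := h1
    exact AddSubgroup.index_eq_one.mp this
  have h3 : 3 ∣ Nat.card (A ⧸ ser lam n) := by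
    have h5 : (243 : ℕ) = 3 ^ 5 := by norm_num
    rw [h5] at hdvd
    obtain ⟨k, _, hk⟩ := (Nat.dvd_prime_pow Nat.prime_three).mp hdvd
    rw [hk] at hne ⊢
    rcases Nat.eq_zero_or_pos k with h0 | h0
    · rw [h0] at hne; simp at hne
    · exact dvd_pow_self 3 (by omega)
  have hfix0 : (0 : A ⧸ ser lam n) ∈ MulAction.fixedPoints Pg (A ⧸ ser lam n) := by
    intro x
    show QuotientAddGroup.map (ser lam n) (ser lam n) (L lam x) _ 0 = 0
    rw [map_zero]
  obtain ⟨b, hb, hb0⟩ := isPGroup_Pg.exists_fixed_point_of_prime_dvd_card_of_fixed_point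
    (A ⧸ ser lam n) h3 hfix0
  obtain ⟨a, rfl⟩ := QuotientAddGroup.mk_surjective b
  apply hb0
  symm
  rw [QuotientAddGroup.eq_zero_iff, heq]
  intro x
  have h := hb x
  have h' : ((L lam x a : A) : A ⧸ ser lam n) = (a : A ⧸ ser lam n) := h
  rw [QuotientAddGroup.eq] at h'
  have : -(-(L lam x a) + a) ∈ ser lam n := (ser lam n).neg_mem h'
  have e : -(-(L lam x a) + a) = L lam x a - a := by abel
  rwa [e] at this

theorem exists_ser_eq_top (hA : Nat.card A = 243) : ∃ n, ser lam n = ⊤ := by
  have : Finite A := Nat.finite_of_card_ne_zero (by rw [hA]; norm_num)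
  by_contra hcon
  push Not at hcon
  have hs : StrictMono (ser lam) := strictMono_nat_of_lt_succ fun n =>
    lt_of_le_of_ne (ser_le_succ lam n) (ser_lt_succ lam hA n (hcon n))
  exact not_injective_infinite_finite _ hs.injective

theorem exists_proper (hA : Nat.card A = 243) (M : AddSubgroup A) (hM : M ≠ ⊥)
    (hK : ∀ (q : Qg) (a : A), a ∈ M → K lam q a ∈ M)
    (hL : ∀ (x : Pg) (a : A), a ∈ M → L lam x a ∈ M) :
    ∃ M' : AddSubgroup A, M' ≤ M ∧ M' ≠ M ∧ (∀ (q : Qg) (a : A), a ∈ M' → K lam q a ∈ M') ∧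
      (∀ (x : Pg) (a : A), a ∈ M' → L lam x a ∈ M') ∧
      (∀ (x : Pg) (a : A), a ∈ M → L lam x a - a ∈ M') := by
  classical
  have hex : ∃ n, M ≤ ser lam n := by
    obtain ⟨n, hn⟩ := exists_ser_eq_top lam hA
    exact ⟨n, by rw [hn]; exact le_top⟩
  have hmin := Nat.find_spec hex
  rcases Nat.eq_zero_or_pos (Nat.find hex) with h0 | hpos
  · exfalso
    rw [h0] at hmin
    exact hM (le_bot_iff.mp hmin)
  · obtain ⟨m, hm⟩ : ∃ m, Nat.find hex = m + 1 := ⟨Nat.find hex - 1, by omega⟩
    rw [hm] at hmin
    refine ⟨M ⊓ ser lam m, inf_le_left, ?_, ?_, ?_, ?_⟩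
    · intro h
      have h2 : M ≤ ser lam m := inf_eq_left.mp h
      have := Nat.find_min' hex h2
      omega
    · rintro q a ⟨h1, h2⟩
      exact ⟨hK q a h1, K_mem_ser lam m q h2⟩
    · rintro x a ⟨h1, h2⟩
      exact ⟨hL x a h1, L_mem_ser lam m x h2⟩
    · intro x a ha
      exact ⟨M.sub_mem (hL x a ha) ha, hmin ha x⟩

end Pool.Agent.Q191.IYB
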